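import Pool.Agent.H95.NV.Targets2
import Pool.Agent.H52.CM4.SPJ

/-!
# Convergence of the zeta function of a number field at 2 (helper16, nva_modules SIJ)
-/

set_option autoImplicit false

namespace Pool.Agent.H16.NV

open Pool.Agent.H95.NV NumberField
open Pool.Agent.H65.CM4 (nm)
open scoped nonZeroDivisors

theorem pf_SIJ : T_SIJ := by
  intro K _ _
  have h := (Pool.Agent.H52.CM4.pf_DSM K).2.2 2 (by norm_num)
  refine h.congr fun J => ?_
  have h1 : (0 : ℝ) < nm (J : Ideal (𝓞 K)) := by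
    show (0 : ℝ) < ((Ideal.absNorm (J : Ideal (𝓞 K)) : ℕ) : ℝ)
    exact_mod_cast Ideal.absNorm_pos_of_nonZeroDivisors J
  show (nm (J : Ideal (𝓞 K))) ^ (-(2 : ℝ)) = 1 / nm (J : Ideal (𝓞 K)) ^ 2
  rw [Real.rpow_neg h1.le, Real.rpow_two, one_div]

end Pool.Agent.H16.NV
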